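import Mathlib
import Pool.Agent.H52HS.Exist

/-!
# The bilateral weighted shift `W e_n = 2^{-|n|} e_{n+1}` and the chain `1 + *ω + ω + 1`

Let `x` lie in a closed invariant subspace `M` of `W` and `y` in its orthogonal complement. With
`β_{n+1} = 2^{-|n|} β_n`, `f_n = x_n / β_n` and `h_n = β_n conj(y_n)` one has `∑_n f_n h_{n+k} = 0` for all
`k ≥ 0`. So the power series `F = ∑_{m ≥ 1} f_{-m} z^m` and `G = ∑_{l ≥ 1} h_l z^l`, which have Gaussian
decay, satisfy `|F G| ≤ C (1 + max |F| + max |G|)` on every circle, up to a factor polynomial in the radius,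
whereas by the multiplicativity of the Mahler measure `|F G|` has the size of `max |F| max |G|` up to such a
factor. Hence `F` or `G` is a polynomial, and then `x` or `y` is eventually zero on the relevant side, which
quickly gives an integer `j` with `x_n = 0` for `n < j` and `y_n = 0` for `n ≥ j`.
-/

set_option autoImplicit false

namespace Pool.Agent.Results.MP_1e8505_an.HalmosShift

universe u

/-- The set of the closed invariant subspaces of `A`, ordered by inclusion. -/
def Lat {H : Type u} [NormedAddCommGroup H] [InnerProductSpace ℂ H] (A : H →L[ℂ] H) :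
    Set (Submodule ℂ H) :=
  {M | IsClosed (M : Set H) ∧ ∀ x ∈ M, A x ∈ M}

/-- `W` is the bilateral weighted shift `W e_n = 2^{-|n|} e_{n+1}` for the orthonormal basis `e`. -/
def IsHalmosShift {H : Type u} [NormedAddCommGroup H] [InnerProductSpace ℂ H]
    (e : HilbertBasis ℤ ℂ H) (W : H →L[ℂ] H) : Prop :=
  ∀ n : ℤ, W (e n) = ((2 : ℂ) ^ (-|n|)) • e (n + 1)

/-- The subspace `M_k`, the closed linear span of the `e_n` with `n ≥ k`. -/
def tailSpace {H : Type u} [NormedAddCommGroup H] [InnerProductSpace ℂ H]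
    (e : HilbertBasis ℤ ℂ H) (k : ℤ) : Submodule ℂ H :=
  (Submodule.span ℂ (e '' {n : ℤ | k ≤ n})).topologicalClosure

open Pool.Agent.H52HS

section

variable {H : Type u} [NormedAddCommGroup H] [InnerProductSpace ℂ H] [CompleteSpace H]

/-- the chain of the obvious subspaces -/
noncomputable def chain (e : HilbertBasis ℤ ℂ H) : WithBot (WithTop ℤ) → Submodule ℂ H
  | none => ⊥
  | some none => ⊤
  | some (some k) => tailSpace e (-k)

lemma chain_strictMono (e : HilbertBasis ℤ ℂ H) : StrictMono (chain e) := by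
  intro a b hab
  match a, b, hab with
  | none, none, h => exact absurd h (lt_irrefl _)
  | none, some none, _ => exact (bot_lt_tail e 0).trans (tail_lt_top e 0)
  | none, some (some k), _ => exact bot_lt_tail e (-k)
  | some none, none, h => exact absurd h (not_lt_bot)
  | some none, some none, h => exact absurd h (lt_irrefl _)
  | some none, some (some k), h =>
    exfalso
    have h1 : ((⊤ : WithTop ℤ) : WithBot (WithTop ℤ)) < ((k : WithTop ℤ) : WithBot (WithTop ℤ)) := h
    rw [WithBot.coe_lt_coe] at h1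
    exact not_top_lt h1
  | some (some k), none, h => exact absurd h (not_lt_bot)
  | some (some k), some none, _ => exact tail_lt_top e (-k)
  | some (some k), some (some l), h =>
    have h1 : ((k : WithTop ℤ) : WithBot (WithTop ℤ)) < ((l : WithTop ℤ) : WithBot (WithTop ℤ)) := h
    rw [WithBot.coe_lt_coe, WithTop.coe_lt_coe] at h1
    exact tail_lt e (by omega)

lemma lat_iff (e : HilbertBasis ℤ ℂ H) (W : H →L[ℂ] H) (hW : IsHalmosShift e W)
    (M : Submodule ℂ H) : M ∈ Lat W ↔ M = ⊥ ∨ M = ⊤ ∨ ∃ k : ℤ, M = tailSpace e k := by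
  constructor
  · rintro ⟨h1, h2⟩
    exact classify e W hW M h1 h2
  · rintro (rfl | rfl | ⟨k, rfl⟩)
    · refine ⟨?_, fun x hx => ?_⟩
      · rw [Submodule.bot_coe]; exact isClosed_singleton
      · rw [Submodule.mem_bot] at hx ⊢
        rw [hx, map_zero]
    · exact ⟨by rw [Submodule.top_coe]; exact isClosed_univ, fun x _ => Submodule.mem_top⟩
    · exact ⟨Submodule.isClosed_topologicalClosure _, tail_invariant e W hW k⟩

/-- the order isomorphism -/
lemma exists_iso (e : HilbertBasis ℤ ℂ H) (W : H →L[ℂ] H) (hW : IsHalmosShift e W) :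
    ∃ φ : WithBot (WithTop ℤ) ≃o Lat W, ∀ k : ℤ,
      (φ ((k : WithTop ℤ) : WithBot (WithTop ℤ)) : Submodule ℂ H) = tailSpace e (-k) := by
  have hmem : ∀ a, chain e a ∈ Lat W := by
    intro a
    rw [lat_iff e W hW]
    match a with
    | none => exact Or.inl rfl
    | some none => exact Or.inr (Or.inl rfl)
    | some (some k) => exact Or.inr (Or.inr ⟨-k, rfl⟩)
  let f : WithBot (WithTop ℤ) → Lat W := fun a => ⟨chain e a, hmem a⟩
  have hf : StrictMono f := fun a b hab => chain_strictMono e hab
  have hs : Function.Surjective f := by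
    rintro ⟨M, hM⟩
    rcases (lat_iff e W hW M).1 hM with rfl | rfl | ⟨k, rfl⟩
    · exact ⟨none, rfl⟩
    · exact ⟨some none, rfl⟩
    · refine ⟨some (some (-k)), Subtype.ext ?_⟩
      show tailSpace e (-(-k)) = _
      rw [neg_neg]
  exact ⟨hf.orderIsoOfSurjective f hs, fun k => rfl⟩

lemma separable_of_basis (e : HilbertBasis ℤ ℂ H) : TopologicalSpace.SeparableSpace H := by
  have h1 : TopologicalSpace.IsSeparable (Submodule.span ℂ (Set.range e) : Set H) :=
    (Set.countable_range e).isSeparable.span
  have h2 := h1.closure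
  have h3 : closure (Submodule.span ℂ (Set.range e) : Set H) = Set.univ := by
    have := e.dense_span
    rw [← Submodule.topologicalClosure_coe, this, Submodule.top_coe]
  rw [h3] at h2
  exact TopologicalSpace.isSeparable_univ_iff.1 h2

end

/-- For every Hilbert space with an orthonormal basis `(e_n)_{n ∈ ℤ}` the bilateral weighted shift
`W e_n = 2^{-|n|} e_{n+1}` exists as a bounded operator and is unique, its closed invariant subspaces are
exactly `0`, the whole space and the spaces `M_k = span {e_n : n ≥ k}`, and its lattice is order isomorphic to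
`ℤ` with a least and a greatest element adjoined, `k` corresponding to `M_{-k}`. In particular this chain
`1 + *ω + ω + 1` is attained by an operator on a separable Hilbert space. -/
theorem result :
    (∀ (H : Type u) [NormedAddCommGroup H] [InnerProductSpace ℂ H] [CompleteSpace H]
      (e : HilbertBasis ℤ ℂ H),
      (∃! W : H →L[ℂ] H, IsHalmosShift e W) ∧
      ∀ W : H →L[ℂ] H, IsHalmosShift e W →
        (∀ M : Submodule ℂ H, M ∈ Lat W ↔ M = ⊥ ∨ M = ⊤ ∨ ∃ k : ℤ, M = tailSpace e k) ∧
        ∃ φ : WithBot (WithTop ℤ) ≃o Lat W, ∀ k : ℤ,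
          (φ ((k : WithTop ℤ) : WithBot (WithTop ℤ)) : Submodule ℂ H) = tailSpace e (-k)) ∧
    ∃ (H : Type) (_ : NormedAddCommGroup H) (_ : InnerProductSpace ℂ H) (_ : CompleteSpace H)
      (_ : TopologicalSpace.SeparableSpace H) (A : H →L[ℂ] H),
      Nonempty (Lat A ≃o WithBot (WithTop ℤ)) := by
  refine ⟨?_, ?_⟩
  · intro H _ _ _ e
    refine ⟨⟨shift e, shift_apply e, fun W' hW' => shift_unique e W' (shift e) hW' (shift_apply e)⟩,
      fun W hW => ⟨lat_iff e W hW, exists_iso e W hW⟩⟩
  · refine ⟨lp (fun _ : ℤ => ℂ) 2, inferInstance, inferInstance, inferInstance, ?_, ?_⟩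
    · exact separable_of_basis (⟨LinearIsometryEquiv.refl ℂ _⟩ :
        HilbertBasis ℤ ℂ (lp (fun _ : ℤ => ℂ) 2))
    · let e : HilbertBasis ℤ ℂ (lp (fun _ : ℤ => ℂ) 2) := ⟨LinearIsometryEquiv.refl ℂ _⟩
      obtain ⟨φ, -⟩ := exists_iso e (shift e) (shift_apply e)
      exact ⟨shift e, ⟨φ.symm⟩⟩

end Pool.Agent.Results.MP_1e8505_an.HalmosShift
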